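import Pool.Agent.Helper61.RG.CJ1

/-!
# Part CJ2: the inertia groups at conjugate places are conjugate
-/

set_option autoImplicit false
set_option linter.all false

open Polynomial IsDedekindDomain NumberField Filter Topology
open scoped Classical WithZeroTopology

namespace Pool.Agent.Helper61.RG.CJ2

open Pool.Agent.TH115.GD Pool.Agent.R939.EI Pool.Agent.Helper55.TT Pool.Agent.Helper55.UV
open Pool.Agent.Helper55.RG

section gen

variable {R F : Type} [CommRing R] [IsDedekindDomain R] [Field F] [Algebra R F]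
  [IsFractionRing R F] (v v' : HeightOneSpectrum R)

theorem congr_cont2 (e : F ≃+* F) (he : ∀ x, v'.valuation F (e x) = v.valuation F x) :
    Continuous (WithVal.congr (v.valuation F) (v'.valuation F) e) := by
  apply UniformContinuous.continuous
  refine uniformContinuous_of_continuousAt_zero _ ?_
  simp_rw [ContinuousAt, map_zero, (Valued.hasBasis_nhds_zero _ _).tendsto_iff
    (Valued.hasBasis_nhds_zero _ _), true_and, forall_const]
  intro γ
  obtain ⟨r, hr⟩ := MonoidWithZeroHom.ValueGroup₀.restrict₀_surjective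
    (.ofClass (Valued.v (R := WithVal (v'.valuation F)))) γ
  have hr' : (Valued.v (R := WithVal (v'.valuation F))).restrict r = γ := hr
  have hr0 : r ≠ 0 := by
    rintro rfl
    rw [map_zero] at hr'
    exact γ.ne_zero hr'.symm
  obtain ⟨r1, rfl⟩ := (WithVal.congr (v.valuation F) (v'.valuation F) e).surjective r
  have hr1 : r1 ≠ 0 := by
    rintro rfl
    exact hr0 (map_zero _)
  refine ⟨Units.mk0 ((Valued.v (R := WithVal (v.valuation F))).restrict r1) (by simpa using hr1),
    fun x hx => ?_⟩
  have h1 : (Valued.v (R := WithVal (v.valuation F))).restrict x <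
      (Valued.v (R := WithVal (v.valuation F))).restrict r1 := hx
  rw [Valuation.restrict_lt_iff] at h1
  show (Valued.v (R := WithVal (v'.valuation F))).restrict
      (WithVal.congr (v.valuation F) (v'.valuation F) e x) < _
  rw [← hr', Valuation.restrict_lt_iff]
  have e1 : Valued.v (R := WithVal (v'.valuation F))
    (WithVal.congr (v.valuation F) (v'.valuation F) e x) = Valued.v (R := WithVal (v.valuation F)) x := he _
  have e2 : Valued.v (R := WithVal (v'.valuation F))
    (WithVal.congr (v.valuation F) (v'.valuation F) e r1) = Valued.v (R := WithVal (v.valuation F)) r1 := he _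
  rw [e1, e2]
  exact h1

/-- Isomorphisms of completions. -/
theorem comp_iso (e : F ≃+* F) (he : ∀ x, v'.valuation F (e x) = v.valuation F x) :
    ∃ γ : Comp R F v ≃+* Comp R F v', ∀ x : F, γ (algebraMap F _ x) = algebraMap F _ (e x) := by
  have he' : ∀ x, v.valuation F (e.symm x) = v'.valuation F x := fun x => by
    rw [← he, RingEquiv.apply_symm_apply]
  let c := WithVal.congr (v.valuation F) (v'.valuation F) e
  have hc : Continuous c := congr_cont2 v v' e he
  have hc' : Continuous c.symm := congr_cont2 v' v e.symm he'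
  let γ0 : (v.valuation F).Completion ≃+* (v'.valuation F).Completion :=
    UniformSpace.Completion.mapRingEquiv c hc hc'
  let γ : v.adicCompletion F ≃+* v'.adicCompletion F :=
    ((HeightOneSpectrum.adicCompletion.equiv F v).trans γ0).trans
      (HeightOneSpectrum.adicCompletion.equiv F v').symm
  have hγ : ∀ x : F, γ (algebraMap F (v.adicCompletion F) x) =
      algebraMap F (v'.adicCompletion F) (e x) := by
    intro x
    apply HeightOneSpectrum.adicCompletion.ext
    exact UniformSpace.Completion.mapRingHom_coe (f := c.toRingHom) hc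
      ((WithVal.equiv (v.valuation F)).symm x)
  exact ⟨γ, hγ⟩

end gen

section tw

variable {L L' : Type} [Field L] [Field L']

/-- The separable closure of `L'` with the structure of an `L`-algebra twisted by `γ`. -/
def Tw2 (γ : L ≃+* L') : Type := Sep L'

noncomputable instance tw2Field (γ : L ≃+* L') : Field (Tw2 γ) := (inferInstance : Field (Sep L'))

noncomputable instance tw2Algebra (γ : L ≃+* L') : Algebra L (Tw2 γ) :=
  ((algebraMap L' (Sep L')).comp (γ : L →+* L')).toAlgebra

instance tw2SepClosed (γ : L ≃+* L') : IsSepClosed (Tw2 γ) :=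
  (inferInstance : IsSepClosed (Sep L'))

instance tw2Sep (γ : L ≃+* L') : IsSepClosure L (Tw2 γ) := by
  refine ⟨inferInstance, ⟨fun x => ?_⟩⟩
  haveI : Algebra.IsSeparable L' (Sep L') := IsSepClosure.separable
  let y : Sep L' := x
  have h1 : IsSeparable L' y := Algebra.IsSeparable.isSeparable L' y
  have h2 : ((minpoly L' y).map (γ.symm : L' →+* L)).Separable :=
    Polynomial.Separable.map (p := minpoly L' y) h1
  refine Polynomial.Separable.of_dvd h2 ?_
  apply minpoly.dvd
  have h3 : aeval x ((minpoly L' y).map (γ.symm : L' →+* L)) =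
      eval₂ (((algebraMap L' (Sep L')).comp (γ : L →+* L')).comp (γ.symm : L' →+* L)) y
        (minpoly L' y) := by
    rw [aeval_def, eval₂_map]
    rfl
  have h4 : ((algebraMap L' (Sep L')).comp (γ : L →+* L')).comp (γ.symm : L' →+* L) =
      algebraMap L' (Sep L') := by
    ext z
    simp
  rw [h3, h4, ← aeval_def, minpoly.aeval]
  rfl

/-- Isomorphisms extend to the separable closures. -/
theorem exists_G2 (γ : L ≃+* L') : ∃ G : Sep L ≃+* Sep L',
    ∀ x, G (algebraMap L (Sep L) x) = algebraMap L' (Sep L') (γ x) := by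
  let e : Sep L ≃ₐ[L] Tw2 γ := IsSepClosure.equiv L (Sep L) (Tw2 γ)
  refine ⟨e.toRingEquiv, fun x => ?_⟩
  exact e.commutes x

end tw

section val

variable {k' F : Type} [Field k'] [Field F] [Algebra k'[X] F] [IsFractionRing k'[X] F]

theorem es_val2 (s : k' ≃+* k') (θ : k') (x : F) :
    (pl (s θ)).valuation F (es F s x) = (pl θ).valuation F x := by
  have hinj : Function.Injective (s : k' →+* k') := s.injective
  have key : ∀ p : k'[X], p ≠ 0 →
      (pl (s θ)).valuation F (algebraMap k'[X] F (p.map (s : k' →+* k'))) =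
      (pl θ).valuation F (algebraMap k'[X] F p) := by
    intro p hp
    rw [val_poly (s θ) ((Polynomial.map_ne_zero_iff hinj).2 hp), val_poly θ hp]
    have h1 := eq_rootMultiplicity_map (p := p) hinj θ
    have h3 : (s : k' →+* k') θ = s θ := rfl
    rw [h3] at h1
    rw [h1]
  obtain ⟨n, d, hd, rfl⟩ := IsFractionRing.div_surjective (A := k'[X]) x
  have hd0 : d ≠ 0 := nonZeroDivisors.ne_zero hd
  rw [map_div₀, es_poly, es_poly, map_div₀, map_div₀, key d hd0]
  by_cases hn : n = 0
  · rw [hn]; simp
  · rw [key n hn]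

end val

theorem main : S_CJ2 := by
  intro k k' K F _ _ _ _ _ _ _ _ _ _ hT π θ θ' hπ hθ hθ' ι ι'
  haveI := hT.sep
  haveI := hT.fracK
  haveI : IsGalois k k' := inferInstance
  haveI : IsSepClosed k' := IsSepClosure.sep_closed k
  haveI : IsSepClosure K (Sep F) := sepKΩ hT.map
  haveI : Normal K (Sep F) := inferInstance
  -- the roots are conjugate
  obtain ⟨s, hs⟩ : ∃ s : k' ≃ₐ[k] k', s θ = θ' := by
    have h1 : minpoly k θ = minpoly k θ' := by
      rw [← minpoly.eq_of_irreducible hπ hθ, ← minpoly.eq_of_irreducible hπ hθ']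
    have h2 : IsConjRoot k θ θ' := h1
    obtain ⟨s, hs⟩ := (isConjRoot_iff_exists_algEquiv (K := k) (L := k')).1 h2
    exact ⟨s.symm, by rw [← hs, AlgEquiv.symm_apply_apply]⟩
  subst hs
  obtain ⟨γ, hγ⟩ := comp_iso (F := F) (pl θ) (pl (s θ)) (es F (s : k' ≃+* k'))
    (es_val2 (F := F) (s : k' ≃+* k') θ)
  have hγK : ∀ x : K, γ (algebraMap K (Comp k'[X] F (pl θ)) x) = algebraMap K _ x := by
    intro x
    rw [IsScalarTower.algebraMap_apply K F (Comp k'[X] F (pl θ)), hγ, es_K hT,
      ← IsScalarTower.algebraMap_apply K F (Comp k'[X] F (pl (s θ)))]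
  obtain ⟨G, hG⟩ := exists_G2 γ
  let φ : Sep F →ₐ[K] Sep (Comp k'[X] F (pl (s θ))) :=
    { toRingHom := (G : Sep (Comp k'[X] F (pl θ)) →+* _).comp ι.toRingHom
      commutes' := by
        intro x
        show G (ι (algebraMap K (Sep F) x)) = _
        rw [IsScalarTower.algebraMap_apply K F (Sep F), ι.commutes,
          IsScalarTower.algebraMap_apply F (Comp k'[X] F (pl θ)) (Sep (Comp k'[X] F (pl θ))),
          hG, ← IsScalarTower.algebraMap_apply K F (Comp k'[X] F (pl θ)), hγK,
          ← IsScalarTower.algebraMap_apply K (Comp k'[X] F (pl (s θ)))] }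
  obtain ⟨τ, hτ⟩ := CJ1.exists_aut ι' φ
  have hτ' : ∀ x, ι' (τ x) = G (ι x) := hτ
  refine ⟨τ, fun σ hσ => ?_⟩
  obtain ⟨T, hTσ⟩ := hσ
  obtain ⟨σ₀, hσ₀⟩ := exists_conj (preserves hT.map) τ σ
  refine ⟨σ₀, ?_, ?_⟩
  · let e : Sep (Comp k'[X] F (pl θ)) ≃+* Sep (Comp k'[X] F (pl θ)) :=
      (G.trans T.toRingEquiv).trans G.symm
    refine ⟨AlgEquiv.ofRingEquiv (f := e) ?_, ?_⟩
    · intro x
      show G.symm (T (G (algebraMap _ _ x))) = algebraMap _ _ x
      rw [hG, T.commutes, ← hG, RingEquiv.symm_apply_apply]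
    · intro x
      show G.symm (T (G (ι x))) = ι (σ₀ x)
      rw [← hτ', hTσ, ← hσ₀, hτ', RingEquiv.symm_apply_apply]
  · apply AlgEquiv.ext
    intro y
    obtain ⟨x, rfl⟩ := τ.surjective y
    show σ (τ x) = τ (σ₀ (τ⁻¹ (τ x)))
    have : τ⁻¹ (τ x) = x := by
      rw [← AlgEquiv.mul_apply, inv_mul_cancel]
      rfl
    rw [this, hσ₀]

end Pool.Agent.Helper61.RG.CJ2
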