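import Pool.Agent.Helper55.RG.Spec5

/-!
# Part CJ1: two embeddings of the separable closure of `F` differ by an automorphism
-/

set_option autoImplicit false
set_option linter.all false

open Polynomial IsDedekindDomain NumberField
open scoped Classical

namespace Pool.Agent.Helper61.RG.CJ1

open Pool.Agent.TH115.GD Pool.Agent.R939.EI Pool.Agent.Helper55.TT Pool.Agent.Helper55.UV
open Pool.Agent.Helper55.RG

universe u

/-- Embeddings of a normal extension in a larger field have the same image. -/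
theorem exists_aut {K F Ω Ω' : Type u} [Field K] [Field F] [Field Ω] [Field Ω'] [Algebra K F]
    [Algebra F Ω] [Algebra K Ω] [IsScalarTower K F Ω] [Algebra K Ω'] [Algebra F Ω']
    [IsScalarTower K F Ω'] [Normal K Ω] (ι : Ω →ₐ[F] Ω') (φ : Ω →ₐ[K] Ω') :
    ∃ g : Ω ≃ₐ[K] Ω, ∀ x, ι (g x) = φ x := by
  letI : Algebra Ω Ω' := ι.toRingHom.toAlgebra
  haveI : IsScalarTower K Ω Ω' := IsScalarTower.of_algebraMap_eq fun x => by
    show algebraMap K Ω' x = ι (algebraMap K Ω x)
    rw [IsScalarTower.algebraMap_apply K F Ω, ι.commutes, ← IsScalarTower.algebraMap_apply]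
  let g0 : Ω →ₐ[K] Ω := AlgHom.restrictNormal φ Ω
  have hg0 : ∀ x, ι (g0 x) = φ x := fun x => AlgHom.restrictNormal_commutes φ Ω x
  have hbij : Function.Bijective g0 := Algebra.IsAlgebraic.algHom_bijective g0
  exact ⟨AlgEquiv.ofBijective g0 hbij, hg0⟩

theorem main : S_CJ1 := by
  intro k' F _ _ _ _ v ι ι'
  obtain ⟨g, hg⟩ := exists_aut (K := F) (F := F) ι ι'
  exact ⟨g, fun x => (hg x).symm⟩

end Pool.Agent.Helper61.RG.CJ1
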